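import Pool.Agent.Helper95.HV.Stmts

/-! # Row LOCY: the local quantity bounds, integrated -/

set_option autoImplicit false

namespace Pool.Agent.Helper97.HV

open MeasureTheory Filter Pool.Agent.Helper95 Pool.Agent.Helper95.PW Pool.Agent.Helper95.LN Pool.Agent.Helper95.CF
open Pool.Agent.Helper95.HV

theorem locy_kap : 0 ≤ kap := by
  unfold kap
  refine integral_nonneg fun y => ?_
  unfold et
  have h1 : 0 ≤ cb := by
    unfold cb
    exact intervalIntegral.integral_nonneg (by norm_num) fun t _ => sq_nonneg _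
  have h2 : 0 ≤ nr y := Real.sqrt_nonneg _
  simp only [Pi.zero_apply]
  positivity

theorem locy_nr (y : R3) : 0 ≤ nr y := Real.sqrt_nonneg _

theorem locy_cont : Continuous nr := by
  unfold nr
  fun_prop

theorem locy_nmeas {n M : ℕ} (X : Fin M → R3) (k : Fin n) (j : Fin M) :
    Measurable (fun x : Cf n => nr (x k - X j)) := by
  have h : Continuous (fun x : Cf n => nr (x k - X j)) :=
    locy_cont.comp ((continuous_apply k).sub continuous_const)
  exact h.measurable

theorem locy_near_meas {n M : ℕ} (X : Fin M → R3) (b : ℝ) :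
    Measurable (fun x : Cf n => ∑ k, near1 X b (x k)) := by
  unfold near1
  refine Finset.measurable_sum _ fun k _ => Finset.measurable_sum _ fun j _ => ?_
  exact Measurable.ite (measurableSet_lt (locy_nmeas X k j) measurable_const)
    ((locy_nmeas X k j).const_div 1) measurable_const

theorem locy_near0 {M : ℕ} (X : Fin M → R3) (b : ℝ) (y : R3) : 0 ≤ near1 X b y := by
  unfold near1
  refine Finset.sum_nonneg fun j _ => ?_
  split_ifs
  · exact one_div_nonneg.2 (locy_nr _)
  · exact le_rfl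

theorem locy_near_int (hI : ST_INTM) (n M : ℕ) (X : Fin M → R3) (b : ℝ) (u : Wf n) (hu : Sm u)
    (s : Fin n → Fin 2) :
    Integrable (fun x : Cf n => (∑ k, near1 X b (x k)) * u s x ^ 2) := by
  obtain ⟨h1, -, -, -⟩ := hI n M X (fun _ => 1) (u s) (u s) (hu s).1 (hu s).2 (hu s).1 (hu s).2
  refine h1.mono' ((locy_near_meas X b).aestronglyMeasurable.mul
    ((hu s).1.continuous.pow 2).aestronglyMeasurable) (Eventually.of_forall fun x => ?_)
  have hn0 : 0 ≤ ∑ k, near1 X b (x k) := Finset.sum_nonneg fun k _ => locy_near0 X b _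
  have hle : ∑ k, near1 X b (x k) ≤ ∑ k, pot X (fun _ => 1) (x k) := by
    unfold near1 pot
    refine Finset.sum_le_sum fun k _ => Finset.sum_le_sum fun j _ => ?_
    split_ifs
    · exact le_rfl
    · exact one_div_nonneg.2 (locy_nr _)
  rw [Real.norm_of_nonneg (mul_nonneg hn0 (sq_nonneg _)), ← pow_two]
  exact mul_le_mul_of_nonneg_right hle (sq_nonneg _)

theorem locy_Dn0 {n M : ℕ} (b : ℝ) (X : Fin M → R3) (Z : Fin M → ℝ) (x : Cf n) :
    0 ≤ Dn b X Z x := by
  unfold Dn
  refine mul_nonneg (one_div_nonneg.2 locy_kap) (integral_nonneg fun w => ?_)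
  exact Finset.sum_nonneg fun i _ => sq_nonneg _

theorem locy_Rem0 (h2 : ST_KK) {n M : ℕ} (b : ℝ) (hb : 0 < b) (X : Fin M → R3) (x : Cf n)
    (hx : Dist X x) : 0 ≤ Rem b x := by
  unfold Rem
  refine Finset.sum_nonneg fun k _ => Finset.sum_nonneg fun l _ => ?_
  split_ifs with h
  · have := (h2 b (x k - x l) hb).2.1 (hx.1 k l h.ne)
    linarith
  · exact le_rfl

/-- lower bound of the Coulomb energy -/
theorem locy_low (h1 : ST_ES1X) {d z : ℝ} {n M : ℕ} {X : Fin M → R3}
    {Z : Fin M → ℝ} (D : Dat d z n X Z) (x : Cf n) (hx : Dist X x) :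
    1 / 2 * Dn (d / 8) X Z x + Rem (d / 8) x ≤
      Vc X Z x + 16 / d * (z ^ 2 * M) + z * ∑ k, near1 X d (x k) := by
  have hz0 : (0 : ℝ) ≤ z := by linarith [D.z1]
  have h3 := h1 z d hz0 D.d0 n M X Z x D.sep D.nuc D.le hx
  have h4 : (n : ℝ) ≤ z * M := by
    rw [← D.nuc.2]
    calc ∑ j, Z j ≤ ∑ _j : Fin M, z := Finset.sum_le_sum fun j _ => D.le j
      _ = z * M := by simp [mul_comm]
  have hn0 : (0 : ℝ) ≤ n := Nat.cast_nonneg _
  have h5 : 8 * (1 + z) / d * n ≤ 16 / d * (z ^ 2 * M) := by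
    have h6 : (1 + z) * n ≤ 2 * z * (z * M) :=
      mul_le_mul (by linarith [D.z1]) h4 hn0 (by positivity)
    have h7 : 8 * (1 + z) / d * n = 8 / d * ((1 + z) * n) := by ring
    have h8 : 16 / d * (z ^ 2 * M) = 8 / d * (2 * z * (z * M)) := by ring
    rw [h7, h8]
    exact mul_le_mul_of_nonneg_left h6 (by have := D.d0; positivity)
  linarith

theorem LOCY (h1 : ST_ES1X) (h2 : ST_KK) (h3 : ST_AED) (_h4 : ST_QHM) (h5 : ST_INTM) :
    ST_LOCY := by
  intro d hd hd1
  obtain ⟨t, ht⟩ : ∃ t : ℝ, t = 1 / d := ⟨_, rfl⟩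
  have ht1 : 1 ≤ t := by rw [ht, le_div_iff₀ hd]; linarith
  have ht0 : 0 < t := by linarith
  have h16 : 16 / d = 16 * t := by rw [ht]; ring
  refine ⟨64 * t, 128 * t, by positivity, by positivity, fun z n M X Z D => ⟨?_, ?_⟩⟩
  · intro x hx
    have hz0 : (0 : ℝ) ≤ z := by linarith [D.z1]
    have b1 := locy_Dn0 (d / 8) X Z x
    have b2 := locy_Rem0 h2 (d / 8) (by positivity) X x hx
    refine ⟨b1, b2, ?_⟩
    have b3 := locy_low h1 D x hx
    rw [h16] at b3
    unfold Loc
    obtain ⟨a, ha⟩ : ∃ a : ℝ, a = z ^ 2 * M := ⟨_, rfl⟩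
    obtain ⟨b, hb⟩ : ∃ b : ℝ, b = z * ∑ k, near1 X d (x k) := ⟨_, rfl⟩
    have ha0 : 0 ≤ a := by rw [ha]; positivity
    have hb0 : 0 ≤ b := by
      rw [hb]
      exact mul_nonneg hz0 (Finset.sum_nonneg fun k _ => locy_near0 X d _)
    rw [← ha, ← hb] at b3 ⊢
    have b4 : 0 ≤ Vc X Z x + 16 * t * a + b := by linarith
    have b5 : 0 ≤ (64 * t - 2) * (Vc X Z x + 16 * t * a + b) :=
      mul_nonneg (by linarith) b4
    have b6 : 0 ≤ (3072 * t ^ 2 - 1) * a := mul_nonneg (by nlinarith) ha0
    have b7 : 0 ≤ (4096 * t ^ 2 - 64 * t - 1) * b := mul_nonneg (by nlinarith) hb0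
    nlinarith
  · intro u hu hq
    have hz0 : (0 : ℝ) ≤ z := by linarith [D.z1]
    have iV : ∀ s, Integrable (fun x => Vc X Z x * u s x ^ 2) := by
      intro s
      obtain ⟨i1, i2, -, -⟩ := h5 n M X Z (u s) (u s) (hu s).1 (hu s).2 (hu s).1 (hu s).2
      have i3 : Integrable (fun x => u s x * u s x) :=
        (((hu s).1.continuous).mul ((hu s).1.continuous)).integrable_of_hasCompactSupport
          (hu s).2.mul_left
      refine ((i2.sub i1).add (i3.const_mul (nucR X Z))).congr (Eventually.of_forall fun x => ?_)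
      simp only [Pi.add_apply, Pi.sub_apply]
      unfold Vc
      ring
    have i3 : ∀ s, Integrable (fun x => u s x ^ 2) := by
      intro s
      have i0 : Integrable (fun x => u s x * u s x) :=
        (((hu s).1.continuous).mul ((hu s).1.continuous)).integrable_of_hasCompactSupport
          (hu s).2.mul_left
      refine i0.congr (Eventually.of_forall fun x => ?_)
      simp only
      ring
    have hI := locy_near_int h5 n M X d u hu
    have e2 : QM X Z u - kin u + nucR X Z * PW.sq u = ∑ s, ∫ x, Vc X Z x * u s x ^ 2 := by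
      have e3 : QM X Z u - kin u = pair u - one (pot X Z) u := by
        unfold QM
        ring
      rw [e3]
      unfold pair one PW.sq
      rw [Finset.mul_sum, ← Finset.sum_sub_distrib, ← Finset.sum_add_distrib]
      refine Finset.sum_congr rfl fun s _ => ?_
      obtain ⟨i1, i2, -, -⟩ := h5 n M X Z (u s) (u s) (hu s).1 (hu s).2 (hu s).1 (hu s).2
      have i1' : Integrable (fun x => (∑ k, pot X Z (x k)) * u s x ^ 2) :=
        i1.congr (Eventually.of_forall fun x => by simp only; ring)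
      have i2' : Integrable (fun x => rep x * u s x ^ 2) :=
        i2.congr (Eventually.of_forall fun x => by simp only; ring)
      have t0 : ∀ x, Vc X Z x * u s x ^ 2 = (rep x * u s x ^ 2 -
          (∑ k, pot X Z (x k)) * u s x ^ 2) + nucR X Z * u s x ^ 2 := by
        intro x
        unfold Vc
        ring
      have i4 : Integrable (fun x => rep x * u s x ^ 2 - (∑ k, pot X Z (x k)) * u s x ^ 2) :=
        i2'.sub i1'
      simp only [t0]
      rw [integral_add i4 ((i3 s).const_mul _), integral_sub i2' i1', integral_const_mul]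
    -- integral of `Vc + K (z^2 M + z near)`
    have i5 : ∀ K : ℝ, ∀ s, Integrable (fun x : Cf n =>
        (Vc X Z x + K * (z ^ 2 * M + z * ∑ k, near1 X d (x k))) * u s x ^ 2) := by
      intro K s
      refine (((iV s).add ((i3 s).const_mul (K * (z ^ 2 * M)))).add
        ((hI s).const_mul (K * z))).congr (Eventually.of_forall fun x => ?_)
      simp only [Pi.add_apply]
      ring
    have e1 : ∀ K : ℝ, ∑ s, ∫ x, (Vc X Z x + K * (z ^ 2 * M + z * ∑ k, near1 X d (x k))) *
        u s x ^ 2 = (QM X Z u - kin u + nucR X Z * PW.sq u) + K * (z ^ 2 * M) * PW.sq u +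
          K * z * one (near1 X d) u := by
      intro K
      rw [e2]
      unfold one PW.sq
      rw [Finset.mul_sum, Finset.mul_sum, ← Finset.sum_add_distrib, ← Finset.sum_add_distrib]
      refine Finset.sum_congr rfl fun s _ => ?_
      have t0 : ∀ x, (Vc X Z x + K * (z ^ 2 * M + z * ∑ k, near1 X d (x k))) * u s x ^ 2 =
          (Vc X Z x * u s x ^ 2 + K * (z ^ 2 * M) * u s x ^ 2) +
            K * z * ((∑ k, near1 X d (x k)) * u s x ^ 2) := fun x => by ring
      have i4 : Integrable (fun x => Vc X Z x * u s x ^ 2 + K * (z ^ 2 * M) * u s x ^ 2) :=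
        (iV s).add ((i3 s).const_mul _)
      simp only [t0]
      rw [integral_add i4 ((hI s).const_mul _), integral_add (iV s) ((i3 s).const_mul _),
        integral_const_mul, integral_const_mul]
    have hq0 : 0 ≤ PW.sq u := by
      unfold PW.sq
      exact Finset.sum_nonneg fun s _ => integral_nonneg fun x => sq_nonneg _
    have ho0 : 0 ≤ one (near1 X d) u := by
      unfold one
      exact Finset.sum_nonneg fun s _ => integral_nonneg fun x =>
        mul_nonneg (Finset.sum_nonneg fun k _ => locy_near0 X d _) (sq_nonneg _)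
    -- positivity
    have e3 : 0 ≤ ∑ s, ∫ x, (Vc X Z x + (64 * t) * (z ^ 2 * M + z * ∑ k, near1 X d (x k))) *
        u s x ^ 2 := by
      refine Finset.sum_nonneg fun s _ => integral_nonneg_of_ae ?_
      filter_upwards [h3 n M X] with x hx
      simp only [Pi.zero_apply]
      refine mul_nonneg ?_ (sq_nonneg _)
      have b1 := locy_Dn0 (d / 8) X Z x
      have b2 := locy_Rem0 h2 (d / 8) (by positivity) X x hx
      have b3 := locy_low h1 D x hx
      rw [h16] at b3
      have ha0 : 0 ≤ z ^ 2 * (M : ℝ) := by positivity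
      have hb0 : 0 ≤ z * ∑ k, near1 X d (x k) :=
        mul_nonneg hz0 (Finset.sum_nonneg fun k _ => locy_near0 X d _)
      nlinarith [mul_nonneg ht0.le ha0, mul_nonneg ht0.le hb0,
        mul_nonneg (sub_nonneg.2 ht1) hb0]
    rw [e1] at e3
    obtain ⟨Q, hQ⟩ : ∃ Q : ℝ, Q = QM X Z u - kin u + nucR X Z * PW.sq u := ⟨_, rfl⟩
    obtain ⟨a, ha⟩ : ∃ a : ℝ, a = z ^ 2 * M := ⟨_, rfl⟩
    obtain ⟨b, hb⟩ : ∃ b : ℝ, b = z * one (near1 X d) u := ⟨_, rfl⟩
    have ha0 : 0 ≤ a := by rw [ha]; positivity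
    have hb0 : 0 ≤ b := by rw [hb]; exact mul_nonneg hz0 ho0
    have e4 : 0 ≤ Q + 64 * t * a * PW.sq u + 64 * t * b := by
      rw [hQ, ha, hb]
      linarith
    have e5 : a * PW.sq u ≤ 2 * a := by
      calc a * PW.sq u ≤ a * 2 := mul_le_mul_of_nonneg_left hq ha0
        _ = 2 * a := by ring
    have e6 : t * (a * PW.sq u) ≤ t * (2 * a) := mul_le_mul_of_nonneg_left e5 ht0.le
    have htb : 0 ≤ t * b := mul_nonneg ht0.le hb0
    have e7 : 0 ≤ Q + 128 * t * a + 128 * t * b := by nlinarith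
    refine ⟨?_, i5 _, ?_⟩
    · unfold YY
      rw [← hQ, ← ha, ← hb]
      linarith
    · rw [e1]
      unfold YY
      rw [← hQ]
      have g1 : 64 * t * (z ^ 2 * M) * PW.sq u = 64 * t * (a * PW.sq u) := by rw [ha]; ring
      have g2 : 64 * t * z * one (near1 X d) u = 64 * t * b := by rw [hb]; ring
      rw [g1, g2, ← ha, ← hb]
      have g3 : 0 ≤ t * (Q + 128 * t * a + 128 * t * b) := mul_nonneg ht0.le e7
      have g4 : 0 ≤ t ^ 2 * a := by positivity
      have g5 : 0 ≤ t ^ 2 * b := by positivity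
      have g6 : t ^ 2 * (a * PW.sq u) ≤ t ^ 2 * (2 * a) :=
        mul_le_mul_of_nonneg_left e5 (by positivity)
      nlinarith

end Pool.Agent.Helper97.HV
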